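import Mathlib

/-!
# Square roots in cyclotomic fields; multiquadratic fields embed in cyclotomic fields

* `exists_sqrt`: a field of characteristic zero with a primitive `8 m`-th root of unity contains a square root of each
  divisor `n` of `m`.
* `exists_emb_multi`: a field generated by finitely many square roots of rational numbers embeds in some
  `CyclotomicField f ℚ`.
* `exists_emb_quad`: the quadratic fields.
-/

namespace H88Q

open Finset

variable {E : Type*} [Field E]

theorem exists_i {m : ℕ} {ζ : E} (hζ : IsPrimitiveRoot ζ (8 * m)) (hm : m ≠ 0) : ∃ s : E, s ^ 2 = -1 := by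
  have h4 : IsPrimitiveRoot (ζ ^ (2 * m)) 4 := hζ.pow (by positivity) (by ring)
  refine ⟨ζ ^ (2 * m), ?_⟩
  have h2 : IsPrimitiveRoot ((ζ ^ (2 * m)) ^ 2) 2 := h4.pow (by norm_num) (by norm_num)
  exact h2.eq_neg_one_of_two_right

theorem exists_sqrt_two {m : ℕ} {ζ : E} (hζ : IsPrimitiveRoot ζ (8 * m)) (hm : m ≠ 0) : ∃ s : E, s ^ 2 = 2 := by
  have h8 : IsPrimitiveRoot (ζ ^ m) 8 := hζ.pow (by positivity) (by ring)
  have h2 : IsPrimitiveRoot ((ζ ^ m) ^ 4) 2 := h8.pow (by norm_num) (by norm_num)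
  have h3 : (ζ ^ m) ^ 4 = -1 := h2.eq_neg_one_of_two_right
  set z := ζ ^ m with hz
  refine ⟨z - z ^ 3, ?_⟩
  linear_combination (z ^ 2 - 2) * h3

theorem exists_sqrt_odd [CharZero E] {m : ℕ} {ζ : E} (hζ : IsPrimitiveRoot ζ (8 * m)) (hm : m ≠ 0) {q : ℕ}
    (hq : q.Prime) (hq2 : q ≠ 2) (hqm : q ∣ m) : ∃ s : E, s ^ 2 = q := by
  have : Fact q.Prime := ⟨hq⟩
  obtain ⟨i, hi⟩ := exists_i hζ hm
  obtain ⟨r, hr⟩ := hqm
  have hζq : IsPrimitiveRoot (ζ ^ (8 * r)) q := hζ.pow (by positivity) (by rw [hr]; ring)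
  have hch : ringChar (ZMod q) ≠ 2 := by
    rw [ZMod.ringChar_zmod_n]
    exact hq2
  set χ : MulChar (ZMod q) E := (quadraticChar (ZMod q)).ringHomComp (Int.castRingHom E) with hχ
  have h1 : χ ≠ 1 := by
    intro h
    obtain ⟨a, ha⟩ := quadraticChar_exists_neg_one' hch
    have h2 : χ (a : ZMod q) = (1 : MulChar (ZMod q) E) (a : ZMod q) := by rw [h]
    rw [MulChar.one_apply_coe, hχ, MulChar.ringHomComp_apply, ha] at h2
    norm_num at h2
  have h2 : χ.IsQuadratic := (quadraticChar_isQuadratic (ZMod q)).comp _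
  have h3 := gaussSum_sq h1 h2 (AddChar.zmodChar_primitive_of_primitive_root q hζq)
  rw [ZMod.card] at h3
  rcases h2 (-1) with h4 | h4 | h4
  · exfalso
    have h5 : IsUnit (-1 : ZMod q) := isUnit_one.neg
    exact (h5.map χ).ne_zero h4
  · rw [h4, one_mul] at h3
    exact ⟨_, h3⟩
  · rw [h4, neg_one_mul] at h3
    exact ⟨i * gaussSum χ (AddChar.zmodChar q ((IsPrimitiveRoot.iff_def _ q).mp hζq).left), by
      rw [mul_pow, h3, hi, neg_mul_neg, one_mul]⟩

theorem exists_sqrt [CharZero E] {m : ℕ} {ζ : E} (hζ : IsPrimitiveRoot ζ (8 * m)) (hm : m ≠ 0) (n : ℕ) :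
    n ∣ m → ∃ s : E, s ^ 2 = n := by
  induction n using Nat.recOnMul with
  | zero => exact fun _ => ⟨0, by simp⟩
  | one => exact fun _ => ⟨1, by simp⟩
  | prime q hq =>
    intro h
    rcases eq_or_ne q 2 with rfl | h2
    · obtain ⟨s, hs⟩ := exists_sqrt_two hζ hm
      exact ⟨s, by rw [hs]; norm_num⟩
    · exact exists_sqrt_odd hζ hm hq h2 h
  | mul a b ha hb =>
    intro h
    obtain ⟨s, hs⟩ := ha ((dvd_mul_right a b).trans h)
    obtain ⟨t, ht⟩ := hb ((dvd_mul_left b a).trans h)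
    exact ⟨s * t, by rw [mul_pow, hs, ht, Nat.cast_mul]⟩

theorem exists_sqrt_rat [CharZero E] {m : ℕ} {ζ : E} (hζ : IsPrimitiveRoot ζ (8 * m)) (hm : m ≠ 0) (d : ℚ)
    (hd : d.num.natAbs * d.den ∣ m) : ∃ s : E, s ^ 2 = (d : E) := by
  obtain ⟨i, hi⟩ := exists_i hζ hm
  obtain ⟨s, hs⟩ := exists_sqrt hζ hm _ hd
  have hden : (d.den : E) ≠ 0 := Nat.cast_ne_zero.2 d.den_ne_zero
  have h1 : (d : E) = (d.num : E) / (d.den : E) := by
    conv_lhs => rw [← Rat.num_div_den d]
    push_cast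
    rfl
  rw [Nat.cast_mul] at hs
  rcases Int.natAbs_eq d.num with h2 | h2
  · have h3 : (d.num : E) = ((d.num.natAbs : ℕ) : E) := by
      rw [← Int.cast_natCast, ← h2]
    refine ⟨s / d.den, ?_⟩
    rw [div_pow, hs, h1, h3]
    field_simp
  · have h3 : (d.num : E) = -((d.num.natAbs : ℕ) : E) := by
      rw [← Int.cast_natCast, ← Int.cast_neg, ← h2]
    refine ⟨i * s / d.den, ?_⟩
    rw [div_pow, mul_pow, hs, h1, h3, hi]
    field_simp

open Polynomial IntermediateField

/-- fields generated by finitely many square roots embed in a cyclotomic field -/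
theorem exists_emb_multi {K : Type*} [Field K] [CharZero K] (S : Finset K)
    (hS : adjoin ℚ (S : Set K) = ⊤) (hsq : ∀ s ∈ S, ∃ d : ℚ, s ^ 2 = (d : K)) :
    ∃ f : ℕ, 3 ≤ f ∧ Nonempty (K →+* CyclotomicField f ℚ) := by
  classical
  choose! d hd using hsq
  set m : ℕ := ∏ s ∈ S, if s = 0 then 1 else (d s).num.natAbs * (d s).den with hm
  have hd0 : ∀ s ∈ S, s ≠ 0 → (d s).num.natAbs * (d s).den ≠ 0 := by
    intro s hs h0
    refine mul_ne_zero ?_ (d s).den_ne_zero
    rw [Int.natAbs_ne_zero, Rat.num_ne_zero]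
    intro h1
    have h2 := hd s hs
    rw [h1, Rat.cast_zero] at h2
    exact h0 (pow_eq_zero_iff (two_ne_zero) |>.1 h2)
  have hm0 : m ≠ 0 := by
    rw [hm, Finset.prod_ne_zero_iff]
    intro s hs
    split_ifs with h
    · exact one_ne_zero
    · exact hd0 s hs h
  have : NeZero (8 * m) := ⟨by positivity⟩
  have : NeZero ((8 * m : ℕ) : ℚ) := ⟨Nat.cast_ne_zero.2 (NeZero.ne _)⟩
  have : IsCyclotomicExtension {8 * m} ℚ (CyclotomicField (8 * m) ℚ) :=
    CyclotomicField.isCyclotomicExtension (8 * m) ℚ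
  have hζ := IsCyclotomicExtension.zeta_spec (8 * m) ℚ (CyclotomicField (8 * m) ℚ)
  refine ⟨8 * m, by omega, ?_⟩
  obtain ⟨φ⟩ := nonempty_algHom_of_adjoin_splits (F := ℚ) (E := K)
    (K := CyclotomicField (8 * m) ℚ) (S := (S : Set K)) (fun s hs => by
      have h1 : aeval s (X ^ 2 - C (d s) : ℚ[X]) = 0 := by
        rw [map_sub, map_pow, aeval_X, aeval_C, hd s hs]
        simp
      have hne : (X ^ 2 - C (d s) : ℚ[X]) ≠ 0 := X_pow_sub_C_ne_zero (by norm_num) _
      have hint : IsIntegral ℚ s := ⟨X ^ 2 - C (d s), monic_X_pow_sub_C _ (by norm_num), h1⟩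
      refine ⟨hint, ?_⟩
      obtain ⟨t, ht⟩ : ∃ t : CyclotomicField (8 * m) ℚ, t ^ 2 = ((d s : ℚ) : CyclotomicField (8 * m) ℚ) := by
        by_cases h0 : s = 0
        · have h2 := hd s hs
          have h3 : d s = 0 := by
            rw [← Rat.cast_eq_zero (α := K), ← h2, h0, zero_pow two_ne_zero]
          exact ⟨0, by rw [h3]; simp⟩
        · refine exists_sqrt_rat hζ hm0 (d s) ?_
          have h2 := Finset.dvd_prod_of_mem
            (fun s => if s = 0 then 1 else (d s).num.natAbs * (d s).den) hs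
          simpa [h0] using h2
      refine Splits.of_dvd (g := (X ^ 2 - C (d s)).map (algebraMap ℚ _)) ?_ ?_ ?_
      · have h2 : (X ^ 2 - C (d s)).map (algebraMap ℚ (CyclotomicField (8 * m) ℚ)) = (X - C t) * (X - C (-t)) := by
          rw [Polynomial.map_sub, Polynomial.map_pow, map_X, map_C, eq_ratCast, ← ht, C_pow, C_neg]
          ring
        rw [h2]
        exact (Splits.X_sub_C t).mul (Splits.X_sub_C (-t))
      · exact (Polynomial.map_ne_zero_iff (algebraMap ℚ _).injective).2 hne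
      · exact Polynomial.map_dvd _ (minpoly.dvd ℚ s h1)) hS
  exact ⟨φ.toRingHom⟩

/-- quadratic fields embed in a cyclotomic field -/
theorem exists_emb_quad {K : Type*} [Field K] [NumberField K] (h2 : Module.finrank ℚ K = 2) :
    ∃ f : ℕ, 3 ≤ f ∧ Nonempty (K →+* CyclotomicField f ℚ) := by
  classical
  have hne : ∃ α : K, α ∉ (⊥ : IntermediateField ℚ K) := by
    by_contra hcon
    push Not at hcon
    have h3 : (⊥ : IntermediateField ℚ K) = ⊤ := by
      rw [eq_top_iff]
      intro x _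
      exact hcon x
    have h4 := IntermediateField.bot_eq_top_iff_finrank_eq_one.1 h3
    omega
  obtain ⟨α, hα⟩ := hne
  have hint : IsIntegral ℚ α := IsIntegral.of_finite ℚ α
  have hsimple := isSimpleOrder_of_finrank_prime ℚ K (h2 ▸ Nat.prime_two)
  have hgen : ∀ β : K, β ∉ (⊥ : IntermediateField ℚ K) → adjoin ℚ {β} = ⊤ := by
    intro β hβ
    rcases hsimple.eq_bot_or_eq_top (adjoin ℚ {β}) with h3 | h3
    · exfalso
      apply hβ
      rw [← h3]
      exact mem_adjoin_simple_self ℚ β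
    · exact h3
  have hdeg : (minpoly ℚ α).natDegree = 2 := by
    rw [← adjoin.finrank hint, hgen α hα, finrank_top', h2]
  have hm := minpoly.aeval ℚ α
  rw [aeval_eq_sum_range, hdeg] at hm
  have hlead : (minpoly ℚ α).coeff 2 = 1 := by
    have := minpoly.monic hint
    rw [Monic, leadingCoeff, hdeg] at this
    exact this
  rw [Finset.sum_range_succ, Finset.sum_range_succ, Finset.sum_range_one, hlead, one_smul, pow_zero, pow_one,
    Algebra.smul_def, Algebra.smul_def, mul_one, eq_ratCast, eq_ratCast] at hm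
  set b := (minpoly ℚ α).coeff 1
  set c := (minpoly ℚ α).coeff 0
  refine exists_emb_multi {α + ((b / 2 : ℚ) : K)} ?_ ?_
  · rw [Finset.coe_singleton]
    apply hgen
    intro h3
    apply hα
    have h4 := sub_mem h3 ((⊥ : IntermediateField ℚ K).algebraMap_mem (b / 2))
    rwa [eq_ratCast, add_sub_cancel_right] at h4
  · intro s hs
    rw [Finset.mem_singleton] at hs
    refine ⟨b ^ 2 / 4 - c, ?_⟩
    rw [hs]
    push_cast
    linear_combination hm

end H88Q
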