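import Pool.Agent.H85.AB.End
import Pool.Agent.H45.KC.KVal
import Pool.Agent.H9.AB.RelA
import Pool.Agent.H9.FC.LocDeg

/-!
# Project AB, D2a: real fields

`K` a number field all of whose embeddings into `ℂ` are real, `ι : K → L = ℚ(ζ_f)`.
* `cj_fix`: complex conjugation of `L` fixes `ι(K)`.
* `real_core`: if the good places of every solution over `L` satisfy `T_{±g} T_g = 1`, then no prime above `p` is good
  for a solution over `K`.
-/

namespace H88AB

open NumberField IsDedekindDomain H9FC H9AB Finset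

section

variable (f : ℕ) [NeZero f] (L : Type*) [Field L] [NumberField L] [IsCyclotomicExtension {f} ℚ L]

theorem actL_coe (g : (ZMod f)ˣ) (x : 𝓞 L) :
    algebraMap (𝓞 L) L (actL f L g x) = (IsCyclotomicExtension.Rat.galEquivZMod f L).symm g (algebraMap (𝓞 L) L x) := rfl

theorem actL_one (x : 𝓞 L) : actL f L 1 x = x := by
  apply RingOfIntegers.coe_injective
  show algebraMap (𝓞 L) L (actL f L 1 x) = algebraMap (𝓞 L) L x
  rw [actL_coe, map_one]
  rfl

variable {K : Type*} [Field K]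

theorem cj_fix (hreal : ∀ φ : K →+* ℂ, (starRingEnd ℂ).comp φ = φ) (ι : K →+* L) (x : K) :
    cjM f L (ι x) = ι x := by
  obtain ⟨φ⟩ : Nonempty (L →+* ℂ) := inferInstance
  apply φ.injective
  rw [H66AB.map_cjM_eq_conj f L φ]
  exact DFunLike.congr_fun (hreal (φ.comp ι)) x

theorem actL_neg [NumberField K] (hreal : ∀ φ : K →+* ℂ, (starRingEnd ℂ).comp φ = φ) (ι : K →+* L) (g : (ZMod f)ˣ)
    (x : 𝓞 K) : actL f L (-g) (RingOfIntegers.mapRingHom ι x) = actL f L g (RingOfIntegers.mapRingHom ι x) := by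
  have h1 : -g = g * (-1) := by rw [mul_neg, mul_one]
  rw [h1, actL_mul, RingHom.comp_apply]
  congr 1
  apply RingOfIntegers.coe_injective
  exact cj_fix f L hreal ι (x : K)

end

section

variable {K : Type*} [Field K] [NumberField K] {L : Type*} [Field L] [NumberField L]

theorem fsol_map {p : ℕ} {a b c : 𝓞 K} (h : FSol K p a b c) (ι : K →+* L) :
    FSol L p (RingOfIntegers.mapRingHom ι a) (RingOfIntegers.mapRingHom ι b)
      (RingOfIntegers.mapRingHom ι c) := by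
  have hinj : Function.Injective (RingOfIntegers.mapRingHom ι : 𝓞 K →+* 𝓞 L) := by
    intro x y hxy
    apply RingOfIntegers.coe_injective
    apply ι.injective
    exact congrArg (fun z : 𝓞 L => (z : L)) hxy
  refine ⟨?_, ?_, ?_, ?_⟩
  · rw [Ne, map_eq_zero_iff _ hinj]; exact h.1
  · rw [Ne, map_eq_zero_iff _ hinj]; exact h.2.1
  · rw [Ne, map_eq_zero_iff _ hinj]; exact h.2.2.1
  · rw [← map_pow, ← map_pow, ← map_pow, ← map_add, ← map_add, h.2.2.2, map_zero]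

theorem cop_map {q : ℕ} {a b c : 𝓞 K} (h : CopAt K q a b c) (ι : K →+* L) :
    CopAt L q (RingOfIntegers.mapRingHom ι a) (RingOfIntegers.mapRingHom ι b)
      (RingOfIntegers.mapRingHom ι c) := by
  intro P hP hq hh
  refine h (P.comap (RingOfIntegers.mapRingHom ι)) (hP.comap _) ?_ ⟨hh.1, hh.2.1, hh.2.2⟩
  rw [Ideal.mem_comap, map_natCast]
  exact hq

/-- a homomorphism from the integers of `K` with a given kernel extends to the integers of `L` -/
theorem exists_hom {p : ℕ} [Fact p.Prime] (ι : K →+* L) (Ω : Type*) [Field Ω] [IsAlgClosed Ω]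
    [CharP Ω p] (v : HeightOneSpectrum (𝓞 K)) (hv : (p : 𝓞 K) ∈ v.asIdeal) :
    ∃ w : 𝓞 L →+* Ω, ∀ x : 𝓞 K, w (RingOfIntegers.mapRingHom ι x) = 0 ↔ x ∈ v.asIdeal := by
  obtain ⟨ψ, hψ⟩ := exists_redFam K p Ω
  obtain ⟨i, hi⟩ := exists_redFam_ker hψ p v.asIdeal v.isPrime hv
  let _ : Algebra K L := ι.toAlgebra
  obtain ⟨w, hw⟩ := exists_lift_hom K L Ω (ψ i)
  refine ⟨w, fun x => ?_⟩
  have h1 : RingOfIntegers.mapRingHom ι x = algebraMap (𝓞 K) (𝓞 L) x := by
    apply RingOfIntegers.coe_injective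
    rfl
  rw [h1, ← hi, RingHom.mem_ker, ← hw]
  rfl

end

/-- the good conjugates -/
noncomputable def good (f : ℕ) [NeZero f] (L : Type*) [Field L] [NumberField L] [IsCyclotomicExtension {f} ℚ L]
    {Ω : Type*} [Field Ω] (w : 𝓞 L →+* Ω) (a b c : 𝓞 L) : Finset (ZMod f)ˣ := by
  classical
  exact univ.filter fun g => w (actL f L g a) ≠ 0 ∧ w (actL f L g b) ≠ 0 ∧ w (actL f L g c) ≠ 0

theorem mem_good {f : ℕ} [NeZero f] {L : Type*} [Field L] [NumberField L] [IsCyclotomicExtension {f} ℚ L]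
    {Ω : Type*} [Field Ω] {w : 𝓞 L →+* Ω} {a b c : 𝓞 L} {g : (ZMod f)ˣ} :
    g ∈ good f L w a b c ↔ w (actL f L g a) ≠ 0 ∧ w (actL f L g b) ≠ 0 ∧ w (actL f L g c) ≠ 0 := by
  classical
  unfold good
  simp only [mem_filter, mem_univ, true_and]

/-- the symmetry of the good places of the solutions over `L`, up to sign -/
def SymL (f : ℕ) [NeZero f] (L : Type*) [Field L] [NumberField L] [IsCyclotomicExtension {f} ℚ L]
    (p : ℕ) (Ω : Type*) [Field Ω] : Prop :=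
  ∀ a b c : 𝓞 L, FSol L p a b c → CopAt L p a b c → ∀ w : 𝓞 L →+* Ω, ∀ g ∈ good f L w a b c,
    ∃ g' ∈ good f L w a b c, (g' = g ∨ g' = -g) ∧
      (-(w (actL f L g' b)) / w (actL f L g' a)) * (-(w (actL f L g b)) / w (actL f L g a)) = 1

/-- no good prime above `p` for any solution over a real subfield of `ℚ(ζ_f)` -/
theorem real_core (f : ℕ) [NeZero f] (L : Type*) [Field L] [NumberField L] [IsCyclotomicExtension {f} ℚ L]
    {K : Type*} [Field K] [NumberField K] (ι : K →+* L)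
    (hreal : ∀ φ : K →+* ℂ, (starRingEnd ℂ).comp φ = φ) (p : ℕ) [Fact p.Prime] (hp : 3 < p)
    (Ω : Type*) [Field Ω] [IsAlgClosed Ω] [CharP Ω p] (hsym : SymL f L p Ω)
    (a b c : K) (ha : a ≠ 0) (hb : b ≠ 0) (hc : c ≠ 0) (h : a ^ p + b ^ p + c ^ p = 0)
    (v : HeightOneSpectrum (𝓞 K)) (hv : (p : 𝓞 K) ∈ v.asIdeal)
    (hg : v.valuation K a = v.valuation K b ∧ v.valuation K b = v.valuation K c) : False := by
  obtain ⟨l, a', b', c', hl, ea, eb, ec, hF, hcp, -⟩ := H45KC.exists_norm K p p a b c ha hb hc h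
  obtain ⟨n1, n2, n3⟩ := (H45KC.not_dv_iff ha hb hc h v).2 hg
  rw [H45KC.dv_iff hl ea eb ec hcp _ hv] at n1
  rw [H45KC.dv_iff hl eb ec ea hcp.rot _ hv] at n2
  rw [H45KC.dv_iff hl ec ea eb hcp.rot.rot _ hv] at n3
  obtain ⟨w, hw⟩ := exists_hom ι Ω v hv
  have h1good : ∀ x : 𝓞 K, x ∉ v.asIdeal → w (actL f L 1 (RingOfIntegers.mapRingHom ι x)) ≠ 0 := by
    intro x hx
    rw [actL_one]
    exact fun h0 => hx ((hw x).1 h0)
  have hg1 : (1 : (ZMod f)ˣ) ∈ good f L w (RingOfIntegers.mapRingHom ι a')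
      (RingOfIntegers.mapRingHom ι b') (RingOfIntegers.mapRingHom ι c') :=
    mem_good.2 ⟨h1good _ n1, h1good _ n2, h1good _ n3⟩
  have hg2 : (1 : (ZMod f)ˣ) ∈ good f L w (RingOfIntegers.mapRingHom ι a')
      (RingOfIntegers.mapRingHom ι c') (RingOfIntegers.mapRingHom ι b') :=
    mem_good.2 ⟨h1good _ n1, h1good _ n3, h1good _ n2⟩
  -- both types
  have key : ∀ x y z : 𝓞 K, FSol K p x y z → CopAt K p x y z →
      (1 : (ZMod f)ˣ) ∈ good f L w (RingOfIntegers.mapRingHom ι x)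
        (RingOfIntegers.mapRingHom ι y) (RingOfIntegers.mapRingHom ι z) →
      (-(w (RingOfIntegers.mapRingHom ι y)) / w (RingOfIntegers.mapRingHom ι x)) *
        (-(w (RingOfIntegers.mapRingHom ι y)) / w (RingOfIntegers.mapRingHom ι x)) = 1 := by
    intro x y z hFx hcx hgx
    obtain ⟨g', -, hg', h2⟩ := hsym _ _ _ (fsol_map hFx ι) (cop_map hcx ι) w 1 hgx
    have h3 : ∀ u : 𝓞 K, actL f L g' (RingOfIntegers.mapRingHom ι u) = RingOfIntegers.mapRingHom ι u := by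
      intro u
      rcases hg' with rfl | rfl
      · exact actL_one f L _
      · rw [actL_neg f L hreal ι, actL_one]
    rw [h3, h3, actL_one, actL_one] at h2
    exact h2
  have k1 := key a' b' c' hF hcp hg1
  have k2 := key a' c' b' hF.rot.rot.swap hcp.rot.rot.swap hg2
  have hwa : w (RingOfIntegers.mapRingHom ι a') ≠ 0 := fun h0 => n1 ((hw a').1 h0)
  have hs : w (RingOfIntegers.mapRingHom ι a') + w (RingOfIntegers.mapRingHom ι b')
      + w (RingOfIntegers.mapRingHom ι c') = 0 :=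
    fsol_hom hF (w.comp (RingOfIntegers.mapRingHom ι))
  have h3 : (3 : Ω) ≠ 0 := by
    intro h0
    have h4 : ((3 : ℕ) : Ω) = 0 := by exact_mod_cast h0
    have := Nat.le_of_dvd (by norm_num) ((CharP.cast_eq_zero_iff Ω p 3).mp h4)
    omega
  refine H85AB.no_real h3 k1 ?_
  have h5 : 1 - -(w (RingOfIntegers.mapRingHom ι b')) / w (RingOfIntegers.mapRingHom ι a')
      = -(w (RingOfIntegers.mapRingHom ι c')) / w (RingOfIntegers.mapRingHom ι a') := by
    field_simp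
    linear_combination hs
  rw [h5]
  exact k2

/-- the relations for the good places of the solutions over `L`, even characters -/
def RelL (f : ℕ) [NeZero f] (L : Type*) [Field L] [NumberField L] [IsCyclotomicExtension {f} ℚ L]
    (p : ℕ) [NeZero (f * p)] (c₀ : ℕ) (Ω : Type*) [Field Ω] : Prop :=
  ∀ a b c : 𝓞 L, FSol L p a b c → CopAt L p a b c → ∀ w : 𝓞 L →+* Ω, ∀ χ : (ZMod f)ˣ →* Ωˣ, χ (-1) = 1 →
    ∀ m, Even m → 2 ≤ m → 2 * m + 1 ≤ p → H99AB.beta Ω f p c₀ (m + 1) χ = 0 ∨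
      ∑ g ∈ good f L w a b c, (χ g : Ω) * H69FD.LL m (-(w (actL f L g b)) / w (actL f L g a)) = 0

/-- the symmetry of finite families with all relations, even characters, at the prime `p` -/
def SymE (f n p : ℕ) [NeZero (f * p)] (c₀ : ℕ) (Ω : Type*) [Field Ω] : Prop :=
  ∀ n' ≤ n, ∀ (π : Fin n' → (ZMod f)ˣ) (T : Fin n' → Ω), (∀ v, T v ≠ 0) → (∀ v, T v ≠ 1) →
    (∀ χ : (ZMod f)ˣ →* Ωˣ, χ (-1) = 1 → ∀ m, Even m → 2 ≤ m → 2 * m + 1 ≤ p →
      H99AB.beta Ω f p c₀ (m + 1) χ = 0 ∨ ∑ v, (χ (π v) : Ω) * H69FD.LL m (T v) = 0) →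
    ∃ σ : Equiv.Perm (Fin n'), ∀ v, (π (σ v) = π v ∨ π (σ v) = -π v) ∧ T (σ v) * T v = 1

theorem symL_of (f : ℕ) [NeZero f] (L : Type*) [Field L] [NumberField L] [IsCyclotomicExtension {f} ℚ L]
    (p : ℕ) [Fact p.Prime] [NeZero (f * p)] (c₀ : ℕ) (Ω : Type*) [Field Ω] [CharP Ω p]
    (hrel : RelL f L p c₀ Ω) (n : ℕ) (hn : Nat.card (ZMod f)ˣ ≤ n) (hE : SymE f n p c₀ Ω) :
    SymL f L p Ω := by
  classical
  intro a b c hF hC w g hg
  set S := good f L w a b c with hS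
  let e : Fin S.card ≃ S := S.equivFin.symm
  have hle : S.card ≤ n := by
    refine le_trans ?_ hn
    rw [Nat.card_eq_fintype_card]
    exact Finset.card_le_univ S
  have hmem : ∀ v, w (actL f L (e v : (ZMod f)ˣ) a) ≠ 0 ∧ w (actL f L (e v : (ZMod f)ˣ) b) ≠ 0 ∧
      w (actL f L (e v : (ZMod f)ˣ) c) ≠ 0 := fun v => mem_good.1 (e v).2
  have hT0 : ∀ v, -(w (actL f L (e v : (ZMod f)ˣ) b)) / w (actL f L (e v : (ZMod f)ˣ) a) ≠ 0 := by
    intro v
    obtain ⟨h1, h2, -⟩ := hmem v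
    exact div_ne_zero (neg_ne_zero.2 h2) h1
  have hT1 : ∀ v, -(w (actL f L (e v : (ZMod f)ˣ) b)) / w (actL f L (e v : (ZMod f)ˣ) a) ≠ 1 := by
    intro v h1
    obtain ⟨h2, -, h3⟩ := hmem v
    rw [div_eq_one_iff_eq h2] at h1
    have h4 : w (actL f L (e v : (ZMod f)ˣ) a) + w (actL f L (e v : (ZMod f)ˣ) b)
        + w (actL f L (e v : (ZMod f)ˣ) c) = 0 :=
      fsol_hom hF (w.comp (actL f L (e v : (ZMod f)ˣ)))
    apply h3
    linear_combination h4 + h1
  obtain ⟨σ, hσ⟩ := hE S.card hle (fun v => (e v : (ZMod f)ˣ)) _ hT0 hT1 (by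
    intro χ hχ m hm h2m hmp
    rcases hrel a b c hF hC w χ hχ m hm h2m hmp with h1 | h1
    · exact Or.inl h1
    · right
      rw [← h1, ← hS, ← Finset.sum_coe_sort S, ← Equiv.sum_comp e])
  obtain ⟨h1, h2⟩ := hσ (e.symm ⟨g, hg⟩)
  simp only [Equiv.apply_symm_apply] at h1 h2
  exact ⟨(e (σ (e.symm ⟨g, hg⟩)) : (ZMod f)ˣ), (e (σ (e.symm ⟨g, hg⟩))).2, h1, h2⟩

end H88AB
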