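import Pool.Agent.H88.AB.RealF
import Pool.Agent.H88.AB.Quad

/-!
# Project AB, D2a: real quadratic fields, and fields generated by square roots
-/

namespace H88AB

open NumberField IsDedekindDomain Pool.Agent.H71.FD

theorem conj_of_tot {K : Type*} [Field K] [NumberField K] [IsTotallyReal K] (φ : K →+* ℂ) :
    (starRingEnd ℂ).comp φ = φ := by
  have h := IsTotallyReal.isReal (InfinitePlace.mk φ)
  rw [InfinitePlace.isReal_mk_iff] at h
  exact h

/-- a totally real field generated by square roots of rational numbers -/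
theorem null_multi {K : Type*} [Field K] [NumberField K] [IsTotallyReal K] (S : Finset K)
    (hS : IntermediateField.adjoin ℚ (S : Set K) = ⊤) (hsq : ∀ s ∈ S, ∃ d : ℚ, s ^ 2 = (d : K)) :
    Null (fun p => ∃ x y z : K, x ≠ 0 ∧ y ≠ 0 ∧ z ≠ 0 ∧ x ^ p + y ^ p + z ^ p = 0 ∧
      ∃ v : HeightOneSpectrum (𝓞 K), (p : 𝓞 K) ∈ v.asIdeal ∧
        v.valuation K x = v.valuation K y ∧ v.valuation K y = v.valuation K z) := by
  obtain ⟨f, hf, ⟨ι⟩⟩ := H88Q.exists_emb_multi S hS hsq
  exact null_tot (by omega) ι conj_of_tot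

/-- real quadratic fields -/
theorem null_quad {K : Type*} [Field K] [NumberField K] [IsTotallyReal K] (h2 : Module.finrank ℚ K = 2) :
    Null (fun p => ∃ x y z : K, x ≠ 0 ∧ y ≠ 0 ∧ z ≠ 0 ∧ x ^ p + y ^ p + z ^ p = 0 ∧
      ∃ v : HeightOneSpectrum (𝓞 K), (p : 𝓞 K) ∈ v.asIdeal ∧
        v.valuation K x = v.valuation K y ∧ v.valuation K y = v.valuation K z) := by
  obtain ⟨f, hf, ⟨ι⟩⟩ := H88Q.exists_emb_quad h2
  exact null_tot (by omega) ι conj_of_tot

end H88AB
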