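import Pool.Agent.H88.AB.RealN
import Pool.Agent.H77.AB.MixMain

/-!
# Project AB, D2a: the relations over `L = ℚ(ζ_f)` itself
-/

namespace H88AB

open Polynomial NumberField IsDedekindDomain H9FC H9AB Finset Pool.Agent.H71.FD

theorem nfR_self (L : Type*) [Field L] [NumberField L] (x y : 𝓞 L) : nfR L L x y = C x + X * C y := by
  classical
  apply Polynomial.map_injective (algebraMap (𝓞 L) L) RingOfIntegers.coe_injective
  rw [nfR_map]
  have hu : ∀ σ : L →ₐ[L] L, σ = AlgHom.id L L := fun σ => Subsingleton.elim _ _
  have hcard : Fintype.card (L →ₐ[L] L) = Module.finrank L L := by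
    rw [Module.finrank_self, Fintype.card_eq_one_iff]
    exact ⟨AlgHom.id L L, hu⟩
  have h1 := nfL_map_prod L L L hcard (x : L) (y : L)
  rw [Algebra.algebraMap_self, Polynomial.map_id] at h1
  rw [h1, Fintype.prod_unique]
  simp

theorem relL (f p c₀ : ℕ) [NeZero f] [NeZero (f * p)] [Fact p.Prime] (hpf : ¬ p ∣ f) (hp : 7 ≤ p)
    (L : Type*) [Field L] [NumberField L] [IsCyclotomicExtension {f} ℚ L] (hc₀ : 1 ≤ c₀)
    (hc₀' : c₀ < f * p) (Ω : Type*) [Field Ω] [IsAlgClosed Ω] [CharP Ω p] : RelL f L p c₀ Ω := by
  classical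
  intro a b c h hcp w χ _ m hm h2m hmp
  have hfr : Module.finrank L L = 1 := Module.finrank_self L
  have key := H77AB.twisted_kummer_mixed f p (by omega) hpf L L a b c h hcp Ω w
    (fun g _ => w.comp (actL f L g)) (by
      intro g x y
      rw [nfR_self, Finset.prod_const, Finset.card_univ, Fintype.card_fin, hfr, pow_one]
      simp) c₀ hc₀ hc₀' (m + 1) (by
        obtain ⟨r, hr⟩ := hm
        exact ⟨r, by omega⟩) (by omega) (by omega) χ
  rcases key with h1 | h1
  · exact Or.inl h1
  · right
    rw [Nat.add_sub_cancel] at h1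
    rw [← h1, ← Finset.sum_subset (Finset.subset_univ (good f L w a b c))]
    · refine Finset.sum_congr rfl fun g hg => ?_
      congr 1
      rw [mem_good] at hg
      have h2 : H77AB.GG (fun _ : Fin (Module.finrank L L) => w.comp (actL f L g)) a b c = Finset.univ := by
        ext i
        rw [H77AB.mem_GG]
        exact ⟨fun _ => Finset.mem_univ _, fun _ => hg⟩
      rw [h2, Finset.sum_const, Finset.card_univ, Fintype.card_fin, hfr, one_smul]
      rfl
    · intro g _ hg
      have h2 : H77AB.GG (fun _ : Fin (Module.finrank L L) => w.comp (actL f L g)) a b c = ∅ := by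
        ext i
        rw [H77AB.mem_GG]
        constructor
        · intro h3
          exact absurd (mem_good.2 h3) hg
        · intro h3
          exact absurd h3 (Finset.notMem_empty _)
      rw [h2, Finset.sum_empty, mul_zero]

end H88AB
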