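import Pool.Agent.H88.AB.RelId
import Pool.Agent.H22.GW.Gap

/-!
# Project AB, D2a: totally real abelian fields, density one
-/

namespace H88AB

open NumberField IsDedekindDomain H9FC H9AB Finset Pool.Agent.H71.FD

theorem gapWStmt : H59AB.GapWStmt := fun k _ _ q W hW ε hε => H22GW.gapW k q W hW ε hε

/-- a totally real subfield `K` of `ℚ(ζ_f)`: for almost all `p` no prime above `p` is good for any solution -/
theorem null_tot {f : ℕ} (hf : 2 ≤ f) {K : Type*} [Field K] [NumberField K]
    (ι : K →+* CyclotomicField f ℚ) (hreal : ∀ φ : K →+* ℂ, (starRingEnd ℂ).comp φ = φ) :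
    Null (fun p => ∃ x y z : K, x ≠ 0 ∧ y ≠ 0 ∧ z ≠ 0 ∧ x ^ p + y ^ p + z ^ p = 0 ∧
      ∃ v : HeightOneSpectrum (𝓞 K), (p : 𝓞 K) ∈ v.asIdeal ∧
        v.valuation K x = v.valuation K y ∧ v.valuation K y = v.valuation K z) := by
  have : NeZero f := ⟨by omega⟩
  have : NeZero ((f : ℕ) : ℚ) := ⟨Nat.cast_ne_zero.2 (NeZero.ne f)⟩
  have : IsCyclotomicExtension {f} ℚ (CyclotomicField f ℚ) := CyclotomicField.isCyclotomicExtension f ℚ
  have : NumberField (CyclotomicField f ℚ) := IsCyclotomicExtension.numberField {f} ℚ _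
  obtain ⟨c, hcf, hc⟩ := Nat.exists_infinite_primes (f + 1)
  have hndvd : ¬ c ∣ f := fun h => by
    have := Nat.le_of_dvd (by omega) h
    omega
  refine null_real gapWStmt hc hndvd hf (CyclotomicField f ℚ) ι hreal (max 7 c) fun p hp _ hB => ?_
  have h7 : 7 < p := lt_of_le_of_lt (le_max_left _ _) hB
  have hcp : c < p := lt_of_le_of_lt (le_max_right _ _) hB
  refine relL f p c ?_ h7.le (CyclotomicField f ℚ) hc.one_le ?_ _
  · intro h
    have := Nat.le_of_dvd (by omega) h
    omega
  · calc c < p := hcp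
      _ = 1 * p := (one_mul p).symm
      _ ≤ f * p := Nat.mul_le_mul_right p (by omega)

end H88AB
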