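import Pool.Agent.H88.AB.Real
import Pool.Agent.H59.AB.Inst

/-!
# Project AB, D2a: real fields, density form
-/

namespace H88AB

open NumberField IsDedekindDomain H9FC H9AB Finset Pool.Agent.H71.FD

theorem symE_of_not {f c n p : ℕ} [NeZero (f * p)] (h : ¬ H59AB.ABBadE f c n p) (Ω : Type)
    [Field Ω] [IsAlgClosed Ω] [CharP Ω p] : SymE f n p c Ω := by
  intro n' hn' π T h0 h1 hrel
  by_contra hcon
  exact h ⟨inferInstance, n', hn', Ω, inferInstance, inferInstance, inferInstance, π, T, h0, h1,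
    fun m hm h2 h3 χ hχ => hrel χ hχ m hm h2 h3, hcon⟩

/-- a real subfield `K` of `ℚ(ζ_f)`: for almost all `p` no prime above `p` is good for any solution -/
theorem null_real {f c : ℕ} [NeZero f] (hG : H59AB.GapWStmt) (hc : c.Prime) (hcf : ¬ c ∣ f) (hf : 2 ≤ f)
    (L : Type) [Field L] [NumberField L] [IsCyclotomicExtension {f} ℚ L]
    {K : Type*} [Field K] [NumberField K] (ι : K →+* L)
    (hreal : ∀ φ : K →+* ℂ, (starRingEnd ℂ).comp φ = φ) (B : ℕ)
    (hrel : ∀ (p : ℕ) [Fact p.Prime] [NeZero (f * p)], B < p →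
      RelL f L p c (AlgebraicClosure (ZMod p))) :
    Null (fun p => ∃ x y z : K, x ≠ 0 ∧ y ≠ 0 ∧ z ≠ 0 ∧ x ^ p + y ^ p + z ^ p = 0 ∧
      ∃ v : HeightOneSpectrum (𝓞 K), (p : 𝓞 K) ∈ v.asIdeal ∧
        v.valuation K x = v.valuation K y ∧ v.valuation K y = v.valuation K z) := by
  refine ((H59AB.null_ABE hG hc hcf hf (Nat.card (ZMod f)ˣ)).or
    (Null_of_bounded (G := fun p => p ≤ max 3 B) (max 3 B) fun p _ hp => hp)).mono fun p hp hbad => ?_
  by_contra hcon
  rw [not_or, not_le] at hcon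
  obtain ⟨h1, h2⟩ := hcon
  obtain ⟨x, y, z, hx, hy, hz, h, v, hv, hg⟩ := hbad
  have : Fact p.Prime := ⟨hp⟩
  have : NeZero (f * p) := ⟨mul_ne_zero (NeZero.ne f) hp.ne_zero⟩
  exact real_core f L ι hreal p (lt_of_le_of_lt (le_max_left _ _) h2) (AlgebraicClosure (ZMod p))
    (symL_of f L p c _ (hrel p (lt_of_le_of_lt (le_max_right _ _) h2)) _ le_rfl
      (symE_of_not h1 _)) x y z hx hy hz h v hv hg

end H88AB
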